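import Pool.Agent.W653.SC.Defs

set_option autoImplicit false

namespace Pool.Agent.W395.SC.Geo

open Pool.Agent.H906R3.YM Pool.Agent.W58 Pool.Agent.W653.CF Pool.Agent.W653.SC

lemma lk_fst {D l k : ℕ} (hD : 2 ≤ D) (x : Fin D → ZMod l) (t : Tm k) (i : Fin D) :
    (lk hD x t).1 i = x i + (if i = ⟨0, by omega⟩ then ((t.1 : ℕ) : ZMod l) else 0) +
      (if i = ⟨1, by omega⟩ then (if t.2 = 2 then 1 else 0) else 0) := by
  unfold lk eT
  simp only [Pi.add_apply, Pi.smul_apply]
  congr 1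
  · congr 1
    by_cases h : i = ⟨0, by omega⟩
    · subst h
      simp
    · rw [if_neg h, Pi.single_eq_of_ne h]
      simp
  · by_cases h2 : t.2 = 2
    · rw [if_pos h2, if_pos h2]
      by_cases h : i = ⟨1, by omega⟩
      · subst h
        simp
      · rw [if_neg h, Pi.single_eq_of_ne h]
    · rw [if_neg h2, if_neg h2]
      simp

lemma lk_snd {D l k : ℕ} (hD : 2 ≤ D) (x y : Fin D → ZMod l) (t t' : Tm k)
    (h : (lk hD x t).2 = (lk hD y t').2) : t.2 = 1 ↔ t'.2 = 1 := by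
  unfold lk at h
  dsimp only at h
  by_cases h1 : t.2 = 1 <;> by_cases h2 : t'.2 = 1
  · simp [h1, h2]
  · rw [if_pos h1, if_neg h2] at h
    exact absurd (congrArg Fin.val h) (by norm_num)
  · rw [if_neg h1, if_pos h2] at h
    exact absurd (congrArg Fin.val h) (by norm_num)
  · simp [h1, h2]

lemma lk_inj {D l k : ℕ} [NeZero l] (hD : 2 ≤ D) (hl : k + 1 < l) (x : Fin D → ZMod l) :
    Function.Injective (lk hD x : Tm k → Ed D l) := by
  intro t t' h
  have h2 := lk_snd hD x x t t' (congrArg Prod.snd h)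
  have h0 := congrFun (congrArg Prod.fst h) ⟨0, by omega⟩
  have h1 := congrFun (congrArg Prod.fst h) ⟨1, by omega⟩
  rw [lk_fst, lk_fst] at h0 h1
  have e01 : (⟨0, by omega⟩ : Fin D) ≠ ⟨1, by omega⟩ := by
    intro hh; exact absurd (congrArg Fin.val hh) (by norm_num)
  rw [if_pos rfl, if_pos rfl, if_neg e01, if_neg e01, add_zero, add_zero, add_right_inj] at h0
  rw [if_neg e01.symm, if_neg e01.symm, if_pos rfl, if_pos rfl, add_zero, add_right_inj] at h1
  have h3 : (t.1 : ℕ) = (t'.1 : ℕ) := by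
    have h4 := (ZMod.natCast_eq_natCast_iff' _ _ _).1 h0
    rw [Nat.mod_eq_of_lt (by have := t.1.2; omega), Nat.mod_eq_of_lt (by have := t'.1.2; omega)] at h4
    exact h4
  have h5 : t.2 = 2 ↔ t'.2 = 2 := by
    have : Fact (1 < l) := ⟨by omega⟩
    by_cases g1 : t.2 = 2 <;> by_cases g2 : t'.2 = 2
    · simp [g1, g2]
    · rw [if_pos g1, if_neg g2] at h1
      exact absurd h1 one_ne_zero
    · rw [if_neg g1, if_pos g2] at h1
      exact absurd h1.symm one_ne_zero
    · simp [g1, g2]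
  refine Prod.ext (Fin.ext h3) ?_
  obtain ⟨t1, t2⟩ := t
  obtain ⟨t1', t2'⟩ := t'
  dsimp only at h2 h5 ⊢
  fin_cases t2 <;> fin_cases t2' <;> simp_all

lemma dT_le_of {D l k : ℕ} [NeZero l] (hD : 2 ≤ D) (x y : Fin D → ZMod l) (t t' : Tm k)
    (h : lk hD x t = lk hD y t') : dT x y ≤ k + 1 := by
  have hi : ∀ i : Fin D, y i - x i =
      (if i = ⟨0, by omega⟩ then (((t.1 : ℕ) : ℤ) - ((t'.1 : ℕ) : ℤ) : ℤ) else
        if i = ⟨1, by omega⟩ then ((if t.2 = 2 then 1 else 0) - (if t'.2 = 2 then 1 else 0) : ℤ)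
        else (0 : ℤ) : ℤ) := by
    intro i
    have h1 := congrFun (congrArg Prod.fst h) i
    rw [lk_fst, lk_fst] at h1
    have e01 : (⟨0, by omega⟩ : Fin D) ≠ ⟨1, by omega⟩ := by
      intro hh; exact absurd (congrArg Fin.val hh) (by norm_num)
    by_cases g0 : i = ⟨0, by omega⟩
    · subst g0
      rw [if_pos rfl, if_pos rfl, if_neg e01, if_neg e01, add_zero, add_zero] at h1
      rw [if_pos rfl]
      push_cast
      linear_combination -h1
    · by_cases g1 : i = ⟨1, by omega⟩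
      · subst g1
        rw [if_neg e01.symm, if_neg e01.symm, if_pos rfl, if_pos rfl, add_zero, add_zero] at h1
        rw [if_neg e01.symm, if_pos rfl]
        push_cast
        linear_combination -h1
      · rw [if_neg g0, if_neg g0, if_neg g1, if_neg g1] at h1
        rw [if_neg g0, if_neg g1]
        push_cast
        linear_combination -h1
  have habs : ∀ a : ℤ, ((a : ZMod l)).valMinAbs.natAbs ≤ a.natAbs := by
    intro a
    apply ZMod.natAbs_min_of_le_div_two l
    · rw [ZMod.coe_valMinAbs]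
    · exact ZMod.natAbs_valMinAbs_le _
  unfold dT
  have hle : ∀ i : Fin D, (y i - x i).valMinAbs.natAbs ≤
      (if i = ⟨0, by omega⟩ then k else 0) + (if i = ⟨1, by omega⟩ then 1 else 0) := by
    intro i
    rw [hi i]
    refine le_trans (habs _) ?_
    by_cases g0 : i = ⟨0, by omega⟩
    · rw [if_pos g0, if_pos g0]
      have := t.1.2
      have := t'.1.2
      omega
    · rw [if_neg g0, if_neg g0]
      by_cases g1 : i = ⟨1, by omega⟩
      · rw [if_pos g1, if_pos g1]
        split_ifs <;> simp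
      · rw [if_neg g1, if_neg g1]
        simp
  refine le_trans (Finset.sum_le_sum fun i _ => hle i) ?_
  rw [Finset.sum_add_distrib, Finset.sum_ite_eq', Finset.sum_ite_eq']
  simp

lemma dT_le {D l : ℕ} [NeZero l] (x y : Fin D → ZMod l) : dT x y ≤ D * l := by
  unfold dT
  have h : ∀ i ∈ (Finset.univ : Finset (Fin D)), (y i - x i).valMinAbs.natAbs ≤ l := by
    intro i _
    have := ZMod.natAbs_valMinAbs_le (y i - x i)
    omega
  refine le_trans (Finset.sum_le_sum h) ?_
  simp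

lemma Pp_gt {D l k : ℕ} (hD : 2 ≤ D) {G : Type} [Group G] (γ : (Fin D → ZMod l) → G)
    (U : Ed D l → G) (x : Fin D → ZMod l) (i : ℕ) (hi : i ≤ k) :
    Pp (k := k) (gt γ U ∘ lk hD x) i =
      γ x * Pp (k := k) (U ∘ lk hD x) i * (γ (x + i • eT ⟨0, by omega⟩))⁻¹ := by
  induction i with
  | zero => simp [Pp]
  | succ i ih =>
    have h1 := ih (by omega)
    have h2 : ((Fin.ofNat (k + 1) i : Fin (k + 1)) : ℕ) = i := by
      rw [Fin.val_ofNat]; exact Nat.mod_eq_of_lt (by omega)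
    have h3 : (lk hD x (Fin.ofNat (k + 1) i, (0 : Fin 3))) =
        (x + i • eT ⟨0, by omega⟩, (⟨0, by omega⟩ : Fin D)) := by
      unfold lk
      dsimp only
      rw [h2, if_neg (by decide), if_neg (by decide), add_zero]
    show Pp (k := k) (gt γ U ∘ lk hD x) i * (gt γ U ∘ lk hD x) (Fin.ofNat (k + 1) i, 0) =
      γ x * (Pp (k := k) (U ∘ lk hD x) i * (U ∘ lk hD x) (Fin.ofNat (k + 1) i, 0)) * _
    rw [h1]
    simp only [Function.comp_apply]
    rw [h3]
    unfold gt
    dsimp only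
    have h4 : x + (i + 1) • eT ⟨0, by omega⟩ = x + i • eT ⟨0, by omega⟩ + eT (⟨0, by omega⟩ : Fin D) := by
      rw [add_smul, one_smul, add_assoc]
    rw [h4]
    group

lemma lk_eq {D l k : ℕ} (hD : 2 ≤ D) (x : Fin D → ZMod l) (j : Fin (k + 1)) :
    lk hD x (j, (0 : Fin 3)) = (x + (j : ℕ) • eT ⟨0, by omega⟩, (⟨0, by omega⟩ : Fin D)) ∧
    lk hD x (j, (1 : Fin 3)) = (x + (j : ℕ) • eT ⟨0, by omega⟩, (⟨1, by omega⟩ : Fin D)) ∧
    lk hD x (j, (2 : Fin 3)) = (x + (j : ℕ) • eT ⟨0, by omega⟩ + eT ⟨1, by omega⟩,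
      (⟨0, by omega⟩ : Fin D)) := by
  refine ⟨?_, ?_, ?_⟩ <;> unfold lk <;> dsimp only
  · rw [if_neg (by decide), if_neg (by decide), add_zero]
  · rw [if_neg (by decide), if_pos rfl, add_zero]
  · rw [if_pos rfl, if_neg (by decide)]

theorem main : StmtGeo := by
  intro D l k _ hD
  refine ⟨?_, fun x y => dT_le x y, ?_⟩
  · intro hl x y hxy
    rintro (t | t) (t' | t') h
    · rw [Sum.elim_inl, Sum.elim_inl] at h
      rw [lk_inj hD hl x h]
    · rw [Sum.elim_inl, Sum.elim_inr] at h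
      exact absurd (dT_le_of hD x y t t' h) (by omega)
    · rw [Sum.elim_inl, Sum.elim_inr] at h
      exact absurd (dT_le_of hD x y t' t h.symm) (by omega)
    · rw [Sum.elim_inr, Sum.elim_inr] at h
      rw [lk_inj hD hl y h]
  · intro G _ γ U x i
    have hP := Pp_gt (k := k) hD γ U x (i : ℕ) i.2.le
    unfold Wl
    rw [hP]
    simp only [Function.comp_apply]
    rw [(lk_eq hD x i.castSucc).1, (lk_eq hD x i.castSucc).2.1, (lk_eq hD x i.castSucc).2.2,
      (lk_eq hD x i.succ).2.1]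
    rw [Fin.val_castSucc, Fin.val_succ]
    unfold gt
    dsimp only
    have h4 : x + ((i : ℕ) + 1) • eT ⟨0, by omega⟩ =
        x + (i : ℕ) • eT ⟨0, by omega⟩ + eT (⟨0, by omega⟩ : Fin D) := by
      rw [add_smul, one_smul, add_assoc]
    rw [h4, add_right_comm (x + (i : ℕ) • eT ⟨0, by omega⟩) (eT (⟨0, by omega⟩ : Fin D))
      (eT (⟨1, by omega⟩ : Fin D))]
    group

end Pool.Agent.W395.SC.Geo
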